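import Pool.Agent.P.MP_749578_co.Limit

namespace Pool.Agent.Results.MP_749578_co.SpreadLimit

open Filter Topology Pool.Agent.P749578

/-- The minimum spread of closed neighbourhood sums of the `k × k` rooks graph is
`(2/3 + o(1)) k²`. -/
theorem result :
    Tendsto (fun k : ℕ => (NSsp (rook k) : ℝ) / (k : ℝ) ^ 2) atTop (𝓝 (2 / 3)) :=
  spread_limit

end Pool.Agent.Results.MP_749578_co.SpreadLimit
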